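import Pool.Agent.Helper227_CLQ.GroupGraph

/-!
# Disjoint cliques in group graphs: passing to the quotient by a solvable normal subgroup
-/

set_option autoImplicit false

namespace Pool.Agent.Results.MP_7e2204_co.SolvableQuotient

open Pool.Agent.Helper227_CLQ

/-- If `N` is a solvable normal subgroup of the finite group `X` and every incomplete group graph of
`X ⧸ N` has two disjoint cliques, then every incomplete group graph of `X` has two disjoint
cliques. -/
theorem result (X : Type) [Group X] [Finite X] (N : Subgroup X) [N.Normal]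
    (hN : Group.IsSolvable N) (hq : Q1For (X ⧸ N)) : Q1For X := by
  intro L h1 hL hne
  by_contra h
  obtain ⟨y0, hy01, hy0L⟩ := ne_top_iff.1 hne
  -- `N` is contained in `L ∪ {1}`
  have hNL : ∀ a ∈ N, a ≠ 1 → a ∈ L := by
    obtain ⟨x, hx⟩ := conj_subset h N hN
    intro a ha ha1
    have hmem : x * a * x⁻¹ ∈ N := Subgroup.Normal.conj_mem inferInstance a ha x
    have e : x⁻¹ * (x * a * x⁻¹) * x = a := by group
    rcases hx _ hmem with h2 | h2
    · rw [e] at h2
      exact absurd h2 ha1
    · rwa [e] at h2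
  -- the connection set of the quotient
  let L' : Set (X ⧸ N) := {c | c ≠ 1 ∧ ∀ y : X, (y : X ⧸ N) = c → y ∈ L}
  have h1' : (1 : X ⧸ N) ∉ L' := fun hc => hc.1 rfl
  have hL' : ∀ c ∈ L', c⁻¹ ∈ L' := by
    rintro c ⟨hc1, hc⟩
    refine ⟨fun hcc => hc1 (inv_eq_one.1 hcc), fun y hy => ?_⟩
    have h2 := hL _ (hc y⁻¹ (by rw [QuotientGroup.mk_inv, hy, inv_inv]))
    rwa [inv_inv] at h2
  -- maximal complete sets of the quotient lift to maximal invariant complete sets
  have lift : ∀ K : Set (X ⧸ N), Maximal (groupGraph L' h1' hL').IsClique K →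
      Maximal (InvClq N (groupGraph L h1 hL)) {x : X | (x : X ⧸ N) ∈ K} := by
    intro K hK
    refine ⟨⟨?_, ?_⟩, ?_⟩
    · intro x hx y hy hxy
      rw [adj_iff]
      by_cases hc : (x : X ⧸ N) = (y : X ⧸ N)
      · exact hNL _ (QuotientGroup.eq.1 hc) (fun h0 => hxy (inv_mul_eq_one.1 h0))
      · have h2 := hK.1 hx hy hc
        rw [adj_iff] at h2
        exact h2.2 _ rfl
    · intro a v hv
      have hav : (((a : X) * v : X) : X ⧸ N) = (v : X ⧸ N) := by
        rw [QuotientGroup.eq]
        have h3 := Subgroup.Normal.conj_mem (inferInstance : N.Normal) _ (N.inv_mem a.2) v⁻¹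
        rw [inv_inv] at h3
        have e : ((a : X) * v)⁻¹ * v = v⁻¹ * (a : X)⁻¹ * v := by group
        rw [e]
        exact h3
      change (((a : X) * v : X) : X ⧸ N) ∈ K
      rw [hav]
      exact hv
    · intro T hT hKT v hv
      change (v : X ⧸ N) ∈ K
      apply mem_of_max hK
      intro c hc hvc
      rw [adj_iff]
      refine ⟨fun h0 => hvc (inv_mul_eq_one.1 h0), fun y hy => ?_⟩
      induction c using QuotientGroup.induction_on with
      | H w =>
        have hvy : ((v * y : X) : X ⧸ N) = (w : X ⧸ N) := by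
          rw [QuotientGroup.mk_mul, hy]
          group
        have hvyT : v * y ∈ T := hKT (by
          change ((v * y : X) : X ⧸ N) ∈ K
          rw [hvy]
          exact hc)
        have hne' : v ≠ v * y := by
          intro h0
          apply hvc
          rw [← hvy, ← h0]
        have h4 := hT.1 hv hvyT hne'
        rw [adj_iff] at h4
        simpa using h4
  have hq' : ¬ TwoDisjointCliques L' h1' hL' := by
    rintro ⟨K, K', hK, hK', hd⟩
    obtain ⟨x, hx1, hx2⟩ := inv_inter h N hN _ _ (lift K hK) (lift K' hK')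
    exact Set.disjoint_left.1 hd hx1 hx2
  have htop : ¬ groupGraph L' h1' hL' ≠ ⊤ := fun h0 => hq' (hq L' h1' hL' h0)
  rw [ne_top_iff] at htop
  push Not at htop
  by_cases hyN : y0 ∈ N
  · exact hy0L (hNL y0 hyN hy01)
  · have h5 := htop (y0 : X ⧸ N) (fun h0 => hyN ((QuotientGroup.eq_one_iff y0).1 h0))
    exact hy0L (h5.2 y0 rfl)

end Pool.Agent.Results.MP_7e2204_co.SolvableQuotient
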