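import Pool.Agent.Helper227_CLQ.GroupGraph

/-!
# Disjoint cliques in group graphs: solvable groups and solvable subgroups
-/

set_option autoImplicit false

namespace Pool.Agent.Results.MP_7e2204_co.SolvableSubgroup

open Pool.Agent.Helper227_CLQ

/-- If no conjugate of some solvable subgroup `H` of the finite group `X` is contained in
`L ∪ {1}`, the group graph `G(L, X)` has two disjoint cliques.  In particular every incomplete group
graph of a finite solvable group has two disjoint cliques. -/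
theorem result :
    (∀ (X : Type) [Group X] [Finite X] (L : Set X) (h1 : (1 : X) ∉ L) (hL : ∀ x ∈ L, x⁻¹ ∈ L)
      (H : Subgroup X), Group.IsSolvable H →
      (∀ x : X, ∃ a ∈ H, x⁻¹ * a * x ≠ 1 ∧ x⁻¹ * a * x ∉ L) → TwoDisjointCliques L h1 hL) ∧
    (∀ (X : Type) [Group X] [Finite X], Group.IsSolvable X → Q1For X) := by
  have main : ∀ (X : Type) [Group X] [Finite X] (L : Set X) (h1 : (1 : X) ∉ L)
      (hL : ∀ x ∈ L, x⁻¹ ∈ L) (H : Subgroup X), Group.IsSolvable H →
      (∀ x : X, ∃ a ∈ H, x⁻¹ * a * x ≠ 1 ∧ x⁻¹ * a * x ∉ L) → TwoDisjointCliques L h1 hL := by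
    intro X _ _ L h1 hL H hH hx
    by_contra h
    obtain ⟨x, hx'⟩ := conj_subset h H hH
    obtain ⟨a, ha, ha1, haL⟩ := hx x
    rcases hx' a ha with h2 | h2
    · exact ha1 h2
    · exact haL h2
  refine ⟨main, ?_⟩
  intro X _ _ hX L h1 hL hne
  obtain ⟨y, hy1, hyL⟩ := ne_top_iff.1 hne
  have hT : Group.IsSolvable (⊤ : Subgroup X) := by
    infer_instance
  refine main X L h1 hL ⊤ hT (fun x => ⟨x * y * x⁻¹, Subgroup.mem_top _, ?_⟩)
  have : x⁻¹ * (x * y * x⁻¹) * x = y := by group
  rw [this]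
  exact ⟨hy1, hyL⟩

end Pool.Agent.Results.MP_7e2204_co.SolvableSubgroup
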